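import Pool.Agent.Lib.MP_9c903d_ag.QK.Defs

/-!
# Part Cls: class two from the generators

Proof of `qk_class_two`. The centralizer of `⁅φ j, φ k⁆` is a Lie subalgebra which contains the
`φ i`, so it is everything (φ surjective; `FreeLieAlgebra.hom_ext`). Then
`{x | all ⁅x, φ i⁆ central}` and `{y | all ⁅x, y⁆ central}` are Lie subalgebras which contain the
`φ i`. `qk_nil`: `LieModule.exists_forall_pow_toEnd_eq_zero`.
-/

namespace Pool.Agent.MP_9c903d.QK

open FreeLieAlgebra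

/-- A Lie subalgebra which contains the generators is everything. -/
theorem qk_gen {I : Type*} {L : Type*} [LieRing L] [LieAlgebra ℂ L]
    (φ : FreeLieAlgebra ℂ I →ₗ⁅ℂ⁆ L) (hφ : Function.Surjective φ) (K : LieSubalgebra ℂ L)
    (hK : ∀ i, φ (of ℂ i) ∈ K) (x : L) : x ∈ K := by
  have h1 : K.incl.comp (lift ℂ (fun i => (⟨φ (of ℂ i), hK i⟩ : K))) = φ := by
    refine FreeLieAlgebra.hom_ext (fun i => ?_)
    simp
  obtain ⟨y, rfl⟩ := hφ x
  rw [← h1]
  exact ((lift ℂ (fun i => (⟨φ (of ℂ i), hK i⟩ : K))) y).2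

theorem qk_class_two {I : Type*} {L : Type*} [LieRing L] [LieAlgebra ℂ L]
    (φ : FreeLieAlgebra ℂ I →ₗ⁅ℂ⁆ L) (hφ : Function.Surjective φ)
    (h : ∀ i j k, ⁅φ (of ℂ i), ⁅φ (of ℂ j), φ (of ℂ k)⁆⁆ = 0) :
    LieModule.lowerCentralSeries ℂ L L 2 = ⊥ := by
  -- step 1
  have s1 : ∀ j k, ∀ z : L, ⁅z, ⁅φ (of ℂ j), φ (of ℂ k)⁆⁆ = 0 := by
    intro j k
    let K : LieSubalgebra ℂ L :=
      { carrier := {z | ⁅z, ⁅φ (of ℂ j), φ (of ℂ k)⁆⁆ = 0}
        add_mem' := by
          intro a b ha hb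
          change ⁅a + b, _⁆ = 0
          rw [add_lie, show ⁅a, ⁅φ (of ℂ j), φ (of ℂ k)⁆⁆ = 0 from ha,
            show ⁅b, ⁅φ (of ℂ j), φ (of ℂ k)⁆⁆ = 0 from hb, add_zero]
        zero_mem' := zero_lie _
        smul_mem' := by
          intro c a ha
          change ⁅c • a, _⁆ = 0
          rw [smul_lie, show ⁅a, ⁅φ (of ℂ j), φ (of ℂ k)⁆⁆ = 0 from ha, smul_zero]
        lie_mem' := by
          intro a b ha hb
          change ⁅⁅a, b⁆, _⁆ = 0
          rw [lie_lie, show ⁅a, ⁅φ (of ℂ j), φ (of ℂ k)⁆⁆ = 0 from ha,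
            show ⁅b, ⁅φ (of ℂ j), φ (of ℂ k)⁆⁆ = 0 from hb, lie_zero, lie_zero, sub_zero] }
    exact fun z => qk_gen φ hφ K (fun i => h i j k) z
  -- step 2
  have s2 : ∀ (x : L) (i : I) (z : L), ⁅z, ⁅x, φ (of ℂ i)⁆⁆ = 0 := by
    let K : LieSubalgebra ℂ L :=
      { carrier := {x | ∀ (i : I) (z : L), ⁅z, ⁅x, φ (of ℂ i)⁆⁆ = 0}
        add_mem' := by
          intro a b ha hb i z
          rw [add_lie, lie_add, ha i z, hb i z, add_zero]
        zero_mem' := by
          intro i z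
          rw [zero_lie, lie_zero]
        smul_mem' := by
          intro c a ha i z
          rw [smul_lie, lie_smul, ha i z, smul_zero]
        lie_mem' := by
          intro a b ha hb i z
          rw [lie_lie, ha i b, hb i a, sub_zero, lie_zero] }
    exact fun x i z => qk_gen φ hφ K (fun j i z => s1 j i z) x i z
  -- step 3
  have s3 : ∀ (y x z : L), ⁅z, ⁅x, y⁆⁆ = 0 := by
    let K : LieSubalgebra ℂ L :=
      { carrier := {y | ∀ (x z : L), ⁅z, ⁅x, y⁆⁆ = 0}
        add_mem' := by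
          intro a b ha hb x z
          rw [lie_add, lie_add, ha x z, hb x z, add_zero]
        zero_mem' := by
          intro x z
          rw [lie_zero, lie_zero]
        smul_mem' := by
          intro c a ha x z
          rw [lie_smul, lie_smul, ha x z, smul_zero]
        lie_mem' := by
          intro a b ha hb x z
          have h1 : ⁅x, ⁅a, b⁆⁆ = 0 := hb a x
          rw [h1, lie_zero] }
    exact fun y x z => qk_gen φ hφ K (fun i x z => s2 x i z) y x z
  rw [eq_bot_iff]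
  change LieModule.lowerCentralSeries ℂ L L (1 + 1) ≤ ⊥
  rw [LieModule.lowerCentralSeries_succ, LieSubmodule.lie_le_iff]
  intro z _ w hw
  have hc : LieModule.lowerCentralSeries ℂ L L 1 ≤ LieModule.maxTrivSubmodule ℂ L L := by
    change LieModule.lowerCentralSeries ℂ L L (0 + 1) ≤ _
    rw [LieModule.lowerCentralSeries_succ, LieSubmodule.lie_le_iff]
    intro x _ y _
    rw [LieModule.mem_maxTrivSubmodule]
    intro z
    exact s3 y x z
  have h2 := hc hw
  rw [LieModule.mem_maxTrivSubmodule] at h2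
  rw [h2 z]
  exact LieSubmodule.zero_mem _

theorem qk_nil {L : Type*} [LieRing L] [LieAlgebra ℂ L] (hn : LieRing.IsNilpotent L) :
    ∃ n, ∀ x y : L, ((LieAlgebra.ad ℂ L x) ^ n) y = 0 := by
  obtain ⟨k, hk⟩ := LieModule.exists_forall_pow_toEnd_eq_zero ℂ L L
  refine ⟨k, fun x y => ?_⟩
  have := hk x
  change ((LieModule.toEnd ℂ L L x) ^ k) y = 0
  rw [this]
  rfl

end Pool.Agent.MP_9c903d.QK
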