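import Pool.Agent.Lib.MP_9c903d_ag.QK.Defs

/-!
# Part Dec: a decomposable cup product relation contradicts nilpotency

Notation: `a i := φ (of (inr i))`. Generators `inl _` are called small. `hxa`, `hxx`: in `L` the small
generators commute with the `a i` and `[g,[g',g'']] = 0` for small `g, g', g''`.
Target: `2 × 2` matrices, `U = !![1,0;0,0]`, `W = !![0,1;0,0]`, `⁅U, W⁆ = W`.
-/

namespace Pool.Agent.MP_9c903d.QK

open FreeLieAlgebra

attribute [local instance 100] LieRing.ofAssociativeRing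

/-- The diagonal matrix unit. -/
def dU : Matrix (Fin 2) (Fin 2) ℂ := !![1, 0; 0, 0]

/-- The upper matrix unit. -/
def dW : Matrix (Fin 2) (Fin 2) ℂ := !![0, 1; 0, 0]

theorem d_lie_UW : ⁅dU, dW⁆ = dW := by
  rw [LieRing.of_associative_ring_bracket]
  ext i j
  fin_cases i <;> fin_cases j <;> simp [dU, dW]

theorem d_lie_pair (a b c d : ℂ) :
    ⁅a • dU + b • dW, c • dU + d • dW⁆ = (a * d - c * b) • dW := by
  have h1 : ⁅dW, dU⁆ = -dW := by rw [← lie_skew, d_lie_UW]
  simp only [add_lie, lie_add, smul_lie, lie_smul, lie_self, d_lie_UW, h1, smul_zero, zero_add,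
    add_zero, smul_neg]
  module

theorem dW_ne : dW ≠ 0 := by
  intro h
  have := congrFun (congrFun h 0) 1
  simp [dW] at this

/-- The weight of a generator. -/
def wt {h m : ℕ} (x : Gen h m) : ℕ := (ty x).1 + (ty x).2

theorem wt_inl {h m : ℕ} (g : Fin h ⊕ Fin h) : wt (h := h) (m := m) (.inl g) = 1 := by
  rcases g with g | g <;> rfl

theorem wt_inr {h m : ℕ} (i : Fin m) : wt (h := h) (m := m) (.inr i) = 2 := rfl

theorem wt_sum {h m : ℕ} (l : List (Gen h m)) :
    (l.map wt).sum = ((l.map ty).sum).1 + ((l.map ty).sum).2 := by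
  induction l with
  | nil => rfl
  | cons x l ih =>
    rw [List.map_cons, List.sum_cons, List.map_cons, List.sum_cons, Prod.fst_add, Prod.snd_add, ih]
    unfold wt
    omega

theorem wt_len {h m : ℕ} (l : List (Gen h m)) : l.length ≤ (l.map wt).sum := by
  induction l with
  | nil => simp
  | cons x l ih =>
    rw [List.length_cons, List.map_cons, List.sum_cons]
    have : 1 ≤ wt x := by
      rcases x with g | i
      · rw [wt_inl]
      · rw [wt_inr]; omega
    omega

/-- All letters `inr`: the type is `(length, length)`. -/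
theorem ty_inr_sum {h m : ℕ} (l : List (Gen h m)) (hl : ∀ g, (Sum.inl g : Gen h m) ∉ l) :
    (l.map ty).sum = (l.length, l.length) := by
  induction l with
  | nil => rfl
  | cons x l ih =>
    rw [List.map_cons, List.sum_cons, ih fun g hg => hl g (List.mem_cons_of_mem _ hg)]
    rcases x with g | i
    · exact absurd (List.mem_cons_self) (hl g)
    · rw [List.length_cons]
      show ((1 : ℕ), (1 : ℕ)) + (l.length, l.length) = _
      rw [Prod.mk_add_mk, add_comm]

theorem br_small {h m : ℕ} {L : Type*} [LieRing L] [LieAlgebra ℂ L]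
    (ψ : FreeLieAlgebra ℂ (Gen h m) →ₗ⁅ℂ⁆ L) (hψ : ∀ g, ψ (of ℂ (.inl g)) = 0)
    (l : List (Gen h m)) (g : Fin h ⊕ Fin h) (hg : (Sum.inl g : Gen h m) ∈ l) :
    ψ (br l) = 0 := by
  induction l with
  | nil => simp at hg
  | cons x l ih =>
    cases l with
    | nil =>
      rw [List.mem_singleton] at hg
      subst hg
      exact hψ g
    | cons y l =>
      show ψ ⁅of ℂ x, br (y :: l)⁆ = 0
      rw [LieHom.map_lie]
      rcases List.mem_cons.1 hg with h1 | h1
      · rw [← h1, hψ g, zero_lie]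
      · rw [ih h1, lie_zero]

theorem br_small22 {h m : ℕ} {L : Type*} [LieRing L] [LieAlgebra ℂ L]
    (φ : FreeLieAlgebra ℂ (Gen h m) →ₗ⁅ℂ⁆ L)
    (hxa : ∀ g j, ⁅φ (of ℂ (.inl g)), φ (of ℂ (.inr j))⁆ = 0)
    (hxx : ∀ g g' g'', ⁅φ (of ℂ (.inl g)), ⁅φ (of ℂ (.inl g')), φ (of ℂ (.inl g''))⁆⁆ = 0)
    (l : List (Gen h m)) (hlen : 2 ≤ l.length) (hty : (l.map ty).sum = (2, 2))
    (g : Fin h ⊕ Fin h) (hg : (Sum.inl g : Gen h m) ∈ l) :
    φ (br l) = 0 := by
  have hax : ∀ j g, ⁅φ (of ℂ (.inr j)), φ (of ℂ (.inl g))⁆ = 0 := by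
    intro j g
    rw [← lie_skew, hxa, neg_zero]
  have hw : (l.map wt).sum = 4 := by
    have h0 := wt_sum l
    rw [hty] at h0
    exact h0
  have hle := wt_len l
  rcases l with _ | ⟨x1, _ | ⟨x2, _ | ⟨x3, _ | ⟨x4, _ | ⟨x5, l⟩⟩⟩⟩⟩
  · simp at hlen
  · simp at hlen
  · -- length 2
    exfalso
    simp only [List.map_cons, List.map_nil, List.sum_cons, List.sum_nil, add_zero] at hw
    simp only [List.mem_cons, List.not_mem_nil, or_false] at hg
    rcases hg with rfl | rfl
    · rcases x2 with g2 | i2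
      · rw [wt_inl, wt_inl] at hw; omega
      · rw [wt_inl, wt_inr] at hw; omega
    · rcases x1 with g2 | i2
      · rw [wt_inl, wt_inl] at hw; omega
      · rw [wt_inl, wt_inr] at hw; omega
  · -- length 3
    show φ ⁅of ℂ x1, ⁅of ℂ x2, of ℂ x3⁆⁆ = 0
    simp only [List.map_cons, List.map_nil, List.sum_cons, List.sum_nil, add_zero] at hw
    rw [LieHom.map_lie, LieHom.map_lie]
    rcases x1 with g1 | i1 <;> rcases x2 with g2 | i2 <;> rcases x3 with g3 | i3 <;>
      simp only [wt_inl, wt_inr] at hw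
    · omega
    · rw [hxa, lie_zero]
    · rw [hax, lie_zero]
    · omega
    · rw [leibniz_lie, hax, hax, zero_lie, lie_zero, add_zero]
    · omega
    · omega
    · omega
  · -- length 4
    show φ ⁅of ℂ x1, ⁅of ℂ x2, ⁅of ℂ x3, of ℂ x4⁆⁆⁆ = 0
    simp only [List.map_cons, List.map_nil, List.sum_cons, List.sum_nil, add_zero] at hw
    have hp : ∀ x : Gen h m, 1 ≤ wt x := by
      intro x
      rcases x with g | i
      · rw [wt_inl]
      · rw [wt_inr]; omega
    have h1 := hp x1
    have h2 := hp x2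
    have h3 := hp x3
    have h4 := hp x4
    rcases x2 with g2 | i2
    · rcases x3 with g3 | i3
      · rcases x4 with g4 | i4
        · rw [LieHom.map_lie, LieHom.map_lie, LieHom.map_lie, hxx, lie_zero]
        · rw [wt_inr] at hw h4; omega
      · rw [wt_inr] at hw h3; omega
    · rw [wt_inr] at hw h2; omega
  · exfalso
    simp only [List.length_cons] at hle
    omega

theorem d_map_ad {L' L'' : Type*} [LieRing L'] [LieAlgebra ℂ L'] [LieRing L''] [LieAlgebra ℂ L'']
    (χ : L' →ₗ⁅ℂ⁆ L'') (A B : L') (k : ℕ) :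
    χ (((LieAlgebra.ad ℂ L' A) ^ k) B) = ((LieAlgebra.ad ℂ L'' (χ A)) ^ k) (χ B) := by
  induction k with
  | zero => simp
  | succ k ih =>
    rw [pow_succ', pow_succ', Module.End.mul_apply, Module.End.mul_apply, LieAlgebra.ad_apply,
      LieAlgebra.ad_apply, LieHom.map_lie, ih]

theorem qk_dec {h m : ℕ} {L : Type*} [LieRing L] [LieAlgebra ℂ L]
    (φ : FreeLieAlgebra ℂ (Gen h m) →ₗ⁅ℂ⁆ L) (S : Set (FreeLieAlgebra ℂ (Gen h m)))
    (hS : ∀ s ∈ S, ∃ p q, p ≤ 2 ∧ q ≤ 2 ∧ s ∈ Br ty p q)
    (hker : φ.ker = LieSubmodule.lieSpan ℂ (FreeLieAlgebra ℂ (Gen h m)) S)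
    (hnil : ∃ n, ∀ x y : L, ((LieAlgebra.ad ℂ L x) ^ n) y = 0)
    (hxa : ∀ g j, ⁅φ (of ℂ (.inl g)), φ (of ℂ (.inr j))⁆ = 0)
    (hxx : ∀ g g' g'', ⁅φ (of ℂ (.inl g)), ⁅φ (of ℂ (.inl g')), φ (of ℂ (.inl g''))⁆⁆ = 0)
    (α β : Fin m → ℂ) (hαβ : LinearIndependent ℂ ![α, β])
    (hk : ∀ ρ : Fin m → Fin m → ℂ,
      ∑ i, ∑ j, ρ i j • ⁅φ (of ℂ (.inr i)), φ (of ℂ (.inr j))⁆ = 0 →
        ∑ i, ∑ j, ρ i j * (α i * β j - α j * β i) = 0) : False := by
  classical
  set ψ : FreeLieAlgebra ℂ (Gen h m) →ₗ⁅ℂ⁆ Matrix (Fin 2) (Fin 2) ℂ :=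
    FreeLieAlgebra.lift ℂ (fun x : Gen h m => match x with
      | .inl _ => 0
      | .inr i => α i • dU + β i • dW) with hψdef
  have hψl : ∀ g, ψ (of ℂ (.inl g)) = 0 := by
    intro g
    rw [hψdef, FreeLieAlgebra.lift_of_apply]
  have hψr : ∀ i, ψ (of ℂ (.inr i)) = α i • dU + β i • dW := by
    intro i
    rw [hψdef, FreeLieAlgebra.lift_of_apply]
  -- words
  have hwB : ∀ l : List (Gen h m), 2 ≤ l.length → (l.map ty).sum = (2, 2) →
      ∃ ρ : Fin m → Fin m → ℂ,
        φ (br l) = ∑ i, ∑ j, ρ i j • ⁅φ (of ℂ (.inr i)), φ (of ℂ (.inr j))⁆ ∧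
        ψ (br l) = (∑ i, ∑ j, ρ i j * (α i * β j - α j * β i)) • dW := by
    intro l hlen hty
    by_cases hsm : ∃ g, (Sum.inl g : Gen h m) ∈ l
    · obtain ⟨g, hg⟩ := hsm
      refine ⟨0, ?_, ?_⟩
      · rw [br_small22 φ hxa hxx l hlen hty g hg]
        simp
      · rw [br_small ψ hψl l g hg]
        simp
    · push Not at hsm
      have h1 := ty_inr_sum l hsm
      rw [hty] at h1
      have hl2 : l.length = 2 := by
        have := congrArg Prod.fst h1
        simpa using this.symm
      rcases l with _ | ⟨x1, _ | ⟨x2, _ | ⟨x3, l⟩⟩⟩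
      · simp at hl2
      · simp at hl2
      · rcases x1 with g | i
        · exact absurd (by simp) (hsm g)
        rcases x2 with g | j
        · exact absurd (by simp) (hsm g)
        refine ⟨fun u v => if u = i ∧ v = j then 1 else 0, ?_, ?_⟩
        · show φ ⁅of ℂ (Sum.inr i), of ℂ (Sum.inr j)⁆ = _
          rw [LieHom.map_lie, Finset.sum_eq_single i, Finset.sum_eq_single j]
          · simp
          · intro v _ hv
            simp [hv]
          · intro hh
            exact absurd (Finset.mem_univ _) hh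
          · intro u _ hu
            refine Finset.sum_eq_zero fun v _ => ?_
            simp [hu]
          · intro hh
            exact absurd (Finset.mem_univ _) hh
        · show ψ ⁅of ℂ (Sum.inr i), of ℂ (Sum.inr j)⁆ = _
          rw [LieHom.map_lie, hψr, hψr, d_lie_pair, Finset.sum_eq_single i,
            Finset.sum_eq_single j]
          · simp
          · intro v _ hv
            simp [hv]
          · intro hh
            exact absurd (Finset.mem_univ _) hh
          · intro u _ hu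
            refine Finset.sum_eq_zero fun v _ => ?_
            simp [hu]
          · intro hh
            exact absurd (Finset.mem_univ _) hh
      · simp at hl2
  have hsB : ∀ s ∈ Br (ty (h := h) (m := m)) 2 2, ∃ ρ : Fin m → Fin m → ℂ,
        φ s = ∑ i, ∑ j, ρ i j • ⁅φ (of ℂ (.inr i)), φ (of ℂ (.inr j))⁆ ∧
        ψ s = (∑ i, ∑ j, ρ i j * (α i * β j - α j * β i)) • dW := by
    intro s hs
    refine Submodule.span_induction (p := fun s _ => ∃ ρ : Fin m → Fin m → ℂ,
        φ s = ∑ i, ∑ j, ρ i j • ⁅φ (of ℂ (.inr i)), φ (of ℂ (.inr j))⁆ ∧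
        ψ s = (∑ i, ∑ j, ρ i j * (α i * β j - α j * β i)) • dW) ?_ ?_ ?_ ?_ hs
    · rintro x ⟨l, h2, hl, rfl⟩
      exact hwB l h2 hl
    · exact ⟨0, by simp, by simp⟩
    · rintro x y _ _ ⟨ρ, h1, h2⟩ ⟨σ, h3, h4⟩
      refine ⟨ρ + σ, ?_, ?_⟩
      · rw [map_add, h1, h3, ← Finset.sum_add_distrib]
        refine Finset.sum_congr rfl fun i _ => ?_
        rw [← Finset.sum_add_distrib]
        refine Finset.sum_congr rfl fun j _ => ?_
        rw [Pi.add_apply, Pi.add_apply, add_smul]
      · rw [map_add, h2, h4, ← add_smul, ← Finset.sum_add_distrib]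
        congr 1
        refine Finset.sum_congr rfl fun i _ => ?_
        rw [← Finset.sum_add_distrib]
        refine Finset.sum_congr rfl fun j _ => ?_
        rw [Pi.add_apply, Pi.add_apply, add_mul]
    · rintro a x _ ⟨ρ, h1, h2⟩
      refine ⟨a • ρ, ?_, ?_⟩
      · rw [map_smul, h1, Finset.smul_sum]
        refine Finset.sum_congr rfl fun i _ => ?_
        rw [Finset.smul_sum]
        refine Finset.sum_congr rfl fun j _ => ?_
        rw [Pi.smul_apply, Pi.smul_apply, smul_eq_mul, mul_smul]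
      · rw [map_smul, h2, smul_smul, Finset.mul_sum]
        congr 1
        refine Finset.sum_congr rfl fun i _ => ?_
        rw [Finset.mul_sum]
        refine Finset.sum_congr rfl fun j _ => ?_
        rw [Pi.smul_apply, Pi.smul_apply, smul_eq_mul, mul_assoc]
  have hsA : ∀ p q, p ≤ 2 → q ≤ 2 → (p, q) ≠ ((2 : ℕ), (2 : ℕ)) →
      ∀ s ∈ Br (ty (h := h) (m := m)) p q, ψ s = 0 := by
    intro p q hp hq hne s hs
    have hle : Br (ty (h := h) (m := m)) p q ≤ LinearMap.ker ψ.toLinearMap := by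
      refine Submodule.span_le.2 ?_
      rintro x ⟨l, h2, hl, rfl⟩
      show ψ (br l) = 0
      by_cases hsm : ∃ g, (Sum.inl g : Gen h m) ∈ l
      · obtain ⟨g, hg⟩ := hsm
        exact br_small ψ hψl l g hg
      · push Not at hsm
        have h1 := ty_inr_sum l hsm
        rw [hl] at h1
        have h3 := congrArg Prod.fst h1
        have h4 := congrArg Prod.snd h1
        simp only at h3 h4
        exact absurd (Prod.ext (by simp only; omega) (by simp only; omega)) hne
    exact hle hs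
  have hkle : φ.ker ≤ ψ.ker := by
    rw [hker]
    refine LieSubmodule.lieSpan_le.2 ?_
    intro s hs
    show s ∈ ψ.ker
    rw [LieHom.mem_ker]
    have hφs : φ s = 0 := by
      rw [← LieHom.mem_ker, hker]
      exact LieSubmodule.subset_lieSpan hs
    obtain ⟨p, q, hp, hq, hb⟩ := hS s hs
    by_cases hpq : (p, q) = ((2 : ℕ), (2 : ℕ))
    · obtain ⟨rfl, rfl⟩ := Prod.mk.inj hpq
      obtain ⟨ρ, h1, h2⟩ := hsB s hb
      rw [h2, hk ρ (by rw [← h1, hφs]), zero_smul]
    · exact hsA p q hp hq hpq s hb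
  -- dual vectors
  have hdual : ∃ x y : Fin m → ℂ, (∑ i, x i * α i = 1 ∧ ∑ i, x i * β i = 0) ∧
      (∑ i, y i * α i = 0 ∧ ∑ i, y i * β i = 1) := by
    have hp := LinearIndependent.pair_iff.1 hαβ
    have hex : ∃ a b, α a * β b - α b * β a ≠ 0 := by
      by_contra hno
      push Not at hno
      have hα0 : ∀ x, α x = 0 := by
        intro x
        have h := hp (β x) (-α x) (by
          funext y
          have := hno x y
          simp only [Pi.add_apply, Pi.smul_apply, smul_eq_mul, Pi.zero_apply]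
          linear_combination -this)
        simpa using h.2
      have h1 := hp 1 0 (by
        funext y
        simp [hα0 y])
      exact one_ne_zero h1.1
    obtain ⟨a, b, hab⟩ := hex
    set δ := α a * β b - α b * β a with hδ
    have hane : a ≠ b := by
      rintro rfl
      apply hab
      rw [hδ]; ring
    have hsum : ∀ (u v : ℂ) (f : Fin m → ℂ),
        ∑ i, (if i = a then u else if i = b then v else 0) * f i = u * f a + v * f b := by
      intro u v f
      have : ∀ i, (if i = a then u else if i = b then v else 0) * f i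
          = (if i = a then u * f a else 0) + (if i = b then v * f b else 0) := by
        intro i
        by_cases h1 : i = a
        · subst h1
          simp [hane]
        · by_cases h2 : i = b
          · subst h2
            simp [h1]
          · simp [h1, h2]
      rw [Finset.sum_congr rfl fun i _ => this i, Finset.sum_add_distrib]
      simp
    refine ⟨fun i => if i = a then β b / δ else if i = b then -β a / δ else 0,
      fun i => if i = a then -α b / δ else if i = b then α a / δ else 0, ⟨?_, ?_⟩, ⟨?_, ?_⟩⟩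
    · rw [hsum]
      field_simp
      rw [hδ]; ring
    · rw [hsum]
      field_simp
      ring
    · rw [hsum]
      field_simp
      ring
    · rw [hsum]
      field_simp
      rw [hδ]; ring
  obtain ⟨x, y, ⟨hx1, hx2⟩, hy1, hy2⟩ := hdual
  set A : FreeLieAlgebra ℂ (Gen h m) := ∑ i, x i • of ℂ (Sum.inr i) with hA
  set B : FreeLieAlgebra ℂ (Gen h m) := ∑ i, y i • of ℂ (Sum.inr i) with hB
  have hgen : ∀ z : Fin m → ℂ, ψ (∑ i, z i • of ℂ (Sum.inr i))
      = (∑ i, z i * α i) • dU + (∑ i, z i * β i) • dW := by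
    intro z
    have : ψ (∑ i, z i • of ℂ (Sum.inr i)) = ∑ i, z i • ψ (of ℂ (Sum.inr i)) := by
      rw [map_sum]
      refine Finset.sum_congr rfl fun i _ => ?_
      rw [map_smul]
    rw [this, Finset.sum_smul, Finset.sum_smul, ← Finset.sum_add_distrib]
    refine Finset.sum_congr rfl fun i _ => ?_
    rw [hψr, smul_add, smul_smul, smul_smul]
  have hψA : ψ A = dU := by rw [hA, hgen, hx1, hx2, one_smul, zero_smul, add_zero]
  have hψB : ψ B = dW := by rw [hB, hgen, hy1, hy2, one_smul, zero_smul, zero_add]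
  obtain ⟨n, hn⟩ := hnil
  have h0 : ((LieAlgebra.ad ℂ (FreeLieAlgebra ℂ (Gen h m)) A) ^ n) B ∈ φ.ker := by
    rw [LieHom.mem_ker, d_map_ad φ A B n]
    exact hn _ _
  have h1 := hkle h0
  rw [LieHom.mem_ker, d_map_ad ψ A B n, hψA, hψB] at h1
  have hW : ∀ k : ℕ, ((LieAlgebra.ad ℂ (Matrix (Fin 2) (Fin 2) ℂ) dU) ^ k) dW = dW := by
    intro k
    induction k with
    | zero => simp
    | succ k ih =>
      rw [pow_succ', Module.End.mul_apply, ih, LieAlgebra.ad_apply, d_lie_UW]
  rw [hW n] at h1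
  exact dW_ne h1

end Pool.Agent.MP_9c903d.QK
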