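import Mathlib

/-!
# Presentations of Lie algebras with Hodge types (Morgan)
-/

namespace Pool.Agent.MP_9c903d.QK

open FreeLieAlgebra

/-- The generators: `h` of type `(1,0)`, `h` of type `(0,1)` and `m` of type `(1,1)`. -/
abbrev Gen (h m : ℕ) : Type := (Fin h ⊕ Fin h) ⊕ Fin m

/-- The Hodge type of a generator. -/
def ty {h m : ℕ} : Gen h m → ℕ × ℕ
  | .inl (.inl _) => (1, 0)
  | .inl (.inr _) => (0, 1)
  | .inr _ => (1, 1)

/-- The right-normed bracket `[x_{i_1}, [x_{i_2}, …, x_{i_k}]]` in the free Lie algebra. -/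
noncomputable def br {I : Type*} : List I → FreeLieAlgebra ℂ I
  | [] => 0
  | [i] => of ℂ i
  | i :: j :: l => ⁅of ℂ i, br (j :: l)⁆

/-- The elements of type `(p,q)` of the derived algebra: the span of the right-normed brackets
(hence of all brackets) of at least two generators whose types have the sum `(p,q)`. -/
noncomputable def Br {I : Type*} (t : I → ℕ × ℕ) (p q : ℕ) : Submodule ℂ (FreeLieAlgebra ℂ I) :=
  Submodule.span ℂ {x | ∃ l : List I, 2 ≤ l.length ∧ (l.map t).sum = (p, q) ∧ x = br l}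

/-- `L` has a presentation with `h` generators of type `(1,0)`, `h` generators of type `(0,1)` and
`m` generators of type `(1,1)`, and relations in the derived algebra which are homogeneous of types
`(p,q)` with `p, q ≤ 2`. -/
def HodgePresented (h m : ℕ) (L : Type*) [LieRing L] [LieAlgebra ℂ L] : Prop :=
  ∃ φ : FreeLieAlgebra ℂ (Gen h m) →ₗ⁅ℂ⁆ L, Function.Surjective φ ∧
    ∃ S : Set (FreeLieAlgebra ℂ (Gen h m)),
      (∀ s ∈ S, ∃ p q, p ≤ 2 ∧ q ≤ 2 ∧ s ∈ Br ty p q) ∧
      φ.ker = LieSubmodule.lieSpan ℂ (FreeLieAlgebra ℂ (Gen h m)) S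

end Pool.Agent.MP_9c903d.QK
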