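import Pool.Agent.Lib.MP_9c903d_ag.QK.Four

/-!
# Part FourM: at most four elements

Proof: extend `a` by zeros to `a' : Fin 4 → L` (`a' i = if h : i < m then a ⟨i, h⟩ else 0`) and check
`hdec` for `a'`: if `α ∧ β` has a nonzero entry `α_i β_j - α_j β_i` with `i ≥ m` or `j ≥ m`, take
`ρ = E_ij` (`⁅a' i, a' j⁆ = 0`); otherwise the restrictions of `α, β` to `Fin m` (`Fin.castLE`) are
independent (a dependence of the restrictions makes all entries of `α ∧ β` vanish, so `α, β` are
dependent), take `ρ` of `hdec` for them, extended by zero. Then `qk_four`.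
-/

namespace Pool.Agent.MP_9c903d.QK

theorem qk_sum4 {m : ℕ} (hm : m ≤ 4) {M : Type*} [AddCommMonoid M] (g : Fin 4 → M)
    (hg : ∀ x : Fin 4, ¬ (x : ℕ) < m → g x = 0) :
    ∑ x, g x = ∑ i : Fin m, g (Fin.castLE hm i) := by
  refine (Fintype.sum_of_injective (Fin.castLE hm) (Fin.castLE_injective hm)
    (fun i => g (Fin.castLE hm i)) g ?_ (fun i => rfl)).symm
  intro x hx
  apply hg
  intro hlt
  exact hx ⟨⟨x, hlt⟩, rfl⟩

theorem qk_four' {m : ℕ} (hm : m ≤ 4) {L : Type*} [LieRing L] [LieAlgebra ℂ L] (a : Fin m → L)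
    (hdec : ∀ α β : Fin m → ℂ, LinearIndependent ℂ ![α, β] → ∃ ρ : Fin m → Fin m → ℂ,
      ∑ i, ∑ j, ρ i j • ⁅a i, a j⁆ = 0 ∧ ∑ i, ∑ j, ρ i j * (α i * β j - α j * β i) ≠ 0)
    (i j k : Fin m) : ⁅a i, ⁅a j, a k⁆⁆ = 0 := by
  classical
  set a' : Fin 4 → L := fun x => if h : (x : ℕ) < m then a ⟨x, h⟩ else 0 with ha'
  have haz : ∀ x : Fin 4, ¬ (x : ℕ) < m → a' x = 0 := fun x hx => dif_neg hx
  have hac : ∀ i : Fin m, a' (Fin.castLE hm i) = a i := by
    intro i
    simp [ha']
  have key := qk_four a' ?_ (Fin.castLE hm i) (Fin.castLE hm j) (Fin.castLE hm k)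
  · rwa [hac, hac, hac] at key
  intro α β hαβ
  by_cases hex : ∃ x y : Fin 4, ¬ ((x : ℕ) < m ∧ (y : ℕ) < m) ∧ α x * β y - α y * β x ≠ 0
  · obtain ⟨x, y, hxy, hne⟩ := hex
    refine ⟨fun u v => if u = x ∧ v = y then 1 else 0, ?_, ?_⟩
    · refine Finset.sum_eq_zero fun u _ => Finset.sum_eq_zero fun v _ => ?_
      by_cases huv : u = x ∧ v = y
      · obtain ⟨rfl, rfl⟩ := huv
        have h0 : ⁅a' u, a' v⁆ = 0 := by
          by_cases hu : (u : ℕ) < m
          · have hv : ¬ (v : ℕ) < m := fun hv => hxy ⟨hu, hv⟩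
            rw [haz v hv, lie_zero]
          · rw [haz u hu, zero_lie]
        rw [h0, smul_zero]
      · change (if u = x ∧ v = y then (1 : ℂ) else 0) • ⁅a' u, a' v⁆ = 0
        rw [if_neg huv, zero_smul]
    · rw [Finset.sum_eq_single x, Finset.sum_eq_single y]
      · simpa using hne
      · intro v _ hv
        simp [hv]
      · intro h
        exact absurd (Finset.mem_univ _) h
      · intro u _ hu
        refine Finset.sum_eq_zero fun v _ => ?_
        simp [hu]
      · intro h
        exact absurd (Finset.mem_univ _) h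
  · push Not at hex
    have hind : LinearIndependent ℂ ![(fun i : Fin m => α (Fin.castLE hm i)),
        (fun i : Fin m => β (Fin.castLE hm i))] := by
      rw [LinearIndependent.pair_iff]
      intro s t hst
      by_contra hne
      have hst' : ∀ x : Fin 4, (x : ℕ) < m → s * α x + t * β x = 0 := by
        intro x hx
        have := congrFun hst ⟨x, hx⟩
        simpa using this
      have hall : ∀ x y : Fin 4, α x * β y - α y * β x = 0 := by
        intro x y
        by_cases hxy : (x : ℕ) < m ∧ (y : ℕ) < m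
        · have h1 := hst' x hxy.1
          have h2 := hst' y hxy.2
          have hs : s * (α x * β y - α y * β x) = 0 := by
            linear_combination β y * h1 - β x * h2
          have ht : t * (α x * β y - α y * β x) = 0 := by
            linear_combination α x * h2 - α y * h1
          rcases mul_eq_zero.1 hs with hs0 | h
          · rcases mul_eq_zero.1 ht with ht0 | h
            · exact absurd ⟨hs0, ht0⟩ hne
            · exact h
          · exact h
        · exact hex x y (fun h => Nat.le_of_not_lt fun h' => hxy ⟨h, h'⟩)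
      have hp := (LinearIndependent.pair_iff.1 hαβ)
      have hα0 : ∀ x : Fin 4, α x = 0 := by
        intro x
        have h := hp (β x) (-α x) (by
          funext y
          have := hall x y
          simp only [Pi.add_apply, Pi.smul_apply, smul_eq_mul, Pi.zero_apply]
          linear_combination -this)
        simpa using h.2
      have h1 := hp 1 0 (by
        funext y
        simp [hα0 y])
      exact one_ne_zero h1.1
    obtain ⟨ρ, h1, h2⟩ := hdec _ _ hind
    set ρ' : Fin 4 → Fin 4 → ℂ := fun x y =>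
      if hx : (x : ℕ) < m then (if hy : (y : ℕ) < m then ρ ⟨x, hx⟩ ⟨y, hy⟩ else 0) else 0 with hρ'
    have hρ1 : ∀ x y : Fin 4, ¬ (x : ℕ) < m → ρ' x y = 0 := by
      intro x y hx
      simp [hρ', hx]
    have hρ2 : ∀ x y : Fin 4, ¬ (y : ℕ) < m → ρ' x y = 0 := by
      intro x y hy
      simp [hρ', hy]
    have hρc : ∀ i j : Fin m, ρ' (Fin.castLE hm i) (Fin.castLE hm j) = ρ i j := by
      intro i j
      simp [hρ']
    refine ⟨ρ', ?_, ?_⟩
    · rw [qk_sum4 hm _ (fun x hx => Finset.sum_eq_zero fun y _ => by rw [hρ1 x y hx, zero_smul])]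
      rw [← h1]
      refine Finset.sum_congr rfl fun i _ => ?_
      rw [qk_sum4 hm _ (fun y hy => by rw [hρ2 _ y hy, zero_smul])]
      refine Finset.sum_congr rfl fun j _ => ?_
      rw [hρc, hac, hac]
    · intro h
      apply h2
      rw [← h, qk_sum4 hm _ (fun x hx => Finset.sum_eq_zero fun y _ => by rw [hρ1 x y hx, zero_mul])]
      refine Finset.sum_congr rfl fun i _ => ?_
      rw [qk_sum4 hm _ (fun y hy => by rw [hρ2 _ y hy, zero_mul])]
      refine Finset.sum_congr rfl fun j _ => ?_
      rw [hρc]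

end Pool.Agent.MP_9c903d.QK
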