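import Pool.Agent.Lib.MP_9c903d_ag.QK.StepA
import Pool.Agent.Lib.MP_9c903d_ag.QK.Cls
import Pool.Agent.Lib.MP_9c903d_ag.QK.Dec
import Pool.Agent.Lib.MP_9c903d_ag.QK.FourM

/-!
# Part Fin: nilpotent Lie algebras with a Hodge presentation, h ≤ 1, m ≤ 4

Proof. `qk_nil`. For `h = 1`: `qk_stepA` with `t = ty`, `u = inl (inl 0)` gives `⁅x, ⁅x, y⁆⁆ = 0`,
`⁅x, a j⁆ = 0`; with the swapped types `t i = ((ty i).2, (ty i).1)`, `u = inl (inr 0)` (`Br` of the swapped
types is `Br` with `p, q` exchanged) `⁅y, ⁅y, x⁆⁆ = 0`, `⁅y, a j⁆ = 0`. So `hxa`, `hxx` of `qk_dec` hold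
(`h = 0`: no small generators). `hdec` of `qk_four'` for `a j = φ (inr j)`: if it fails for `α, β`, then
`qk_dec` gives False. So `⁅a i, ⁅a j, a k⁆⁆ = 0`. All `⁅φ g, ⁅φ g', φ g''⁆⁆ = 0` (mixed ones by `hxa` and
Jacobi: `⁅a, ⁅x, y⁆⁆ = ⁅⁅a,x⁆,y⁆ + ⁅x,⁅a,y⁆⁆ = 0`, `⁅x, ⁅a, a'⁆⁆ = 0` in the same way). `qk_class_two`.
-/

namespace Pool.Agent.MP_9c903d.QK

open FreeLieAlgebra

private theorem qk_swap_sum {I : Type*} (t : I → ℕ × ℕ) (l : List I) :
    (l.map fun i => ((t i).2, (t i).1)).sum = ((l.map t).sum.2, (l.map t).sum.1) := by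
  induction l with
  | nil => rfl
  | cons i l ih => rw [List.map_cons, List.sum_cons, ih, List.map_cons, List.sum_cons]; rfl

private theorem qk_swap {I : Type*} (t : I → ℕ × ℕ) (p q : ℕ) (s : FreeLieAlgebra ℂ I)
    (hs : s ∈ Br t p q) : s ∈ Br (fun i => ((t i).2, (t i).1)) q p := by
  unfold Br at hs ⊢
  refine Submodule.span_mono ?_ hs
  rintro x ⟨l, h1, h2, h3⟩
  exact ⟨l, h1, by rw [qk_swap_sum, h2], h3⟩

theorem qk_fin {h m : ℕ} (hh : h ≤ 1) (hm : m ≤ 4) {L : Type*} [LieRing L] [LieAlgebra ℂ L]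
    (hP : HodgePresented h m L) (hn : LieRing.IsNilpotent L) :
    LieModule.lowerCentralSeries ℂ L L 2 = ⊥ := by
  obtain ⟨φ, hφ, S, hS, hker⟩ := hP
  have hnil := qk_nil hn
  have hmain : (∀ g j, ⁅φ (of ℂ (.inl g)), φ (of ℂ (.inr j))⁆ = 0) ∧
      (∀ g g' g'', ⁅φ (of ℂ (.inl g)), ⁅φ (of ℂ (.inl g')), φ (of ℂ (.inl g''))⁆⁆ = 0) := by
    interval_cases h
    · exact ⟨fun g => (g.elim (fun x => x.elim0) fun x => x.elim0), fun g =>
        (g.elim (fun x => x.elim0) fun x => x.elim0)⟩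
    · have hx : ∀ i : Gen 1 m, i ≠ .inl (.inl 0) →
          ((LieAlgebra.ad ℂ L (φ (of ℂ (.inl (.inl 0))))) ^ (2 - (ty i).1)) (φ (of ℂ i)) = 0 := by
        intro i hi
        refine qk_stepA ty (.inl (.inl 0)) rfl ?_ φ S ?_ hker hnil i hi
        · rintro ((j | j) | j) hj
          · exact absurd (by rw [Subsingleton.elim j 0]) hj
          · exact Or.inl rfl
          · exact Or.inr rfl
        · intro s hs
          obtain ⟨p, q, hp, _, hB⟩ := hS s hs
          exact ⟨p, q, hp, hB⟩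
      have hy : ∀ i : Gen 1 m, i ≠ .inl (.inr 0) →
          ((LieAlgebra.ad ℂ L (φ (of ℂ (.inl (.inr 0))))) ^ (2 - (ty i).2)) (φ (of ℂ i)) = 0 := by
        intro i hi
        refine qk_stepA (fun i : Gen 1 m => ((ty i).2, (ty i).1)) (.inl (.inr 0)) rfl ?_ φ S ?_
          hker hnil i hi
        · rintro ((j | j) | j) hj
          · exact Or.inl rfl
          · exact absurd (by rw [Subsingleton.elim j 0]) hj
          · exact Or.inr rfl
        · intro s hs
          obtain ⟨p, q, _, hq, hB⟩ := hS s hs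
          exact ⟨q, p, hq, qk_swap ty p q s hB⟩
      have e1 : ⁅φ (of ℂ (.inl (.inl 0))), ⁅φ (of ℂ (.inl (.inl 0))),
          φ (of ℂ (.inl (.inr 0)))⁆⁆ = 0 := by
        have := hx (.inl (.inr 0)) (by simp)
        simpa [ty, pow_succ] using this
      have e2 : ⁅φ (of ℂ (.inl (.inr 0))), ⁅φ (of ℂ (.inl (.inr 0))),
          φ (of ℂ (.inl (.inl 0)))⁆⁆ = 0 := by
        have := hy (.inl (.inl 0)) (by simp)
        simpa [ty, pow_succ] using this
      have e3 : ∀ j, ⁅φ (of ℂ (.inl (.inl 0))), φ (of ℂ (.inr j))⁆ = 0 := by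
        intro j
        have := hx (.inr j) (by simp)
        simpa [ty, pow_succ] using this
      have e4 : ∀ j, ⁅φ (of ℂ (.inl (.inr 0))), φ (of ℂ (.inr j))⁆ = 0 := by
        intro j
        have := hy (.inr j) (by simp)
        simpa [ty, pow_succ] using this
      refine ⟨?_, ?_⟩
      · rintro (g | g) j
        · rw [Subsingleton.elim g 0]; exact e3 j
        · rw [Subsingleton.elim g 0]; exact e4 j
      · rintro (g | g) (g' | g') (g'' | g'')
        all_goals rw [Subsingleton.elim g 0, Subsingleton.elim g' 0, Subsingleton.elim g'' 0]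
        · rw [lie_self, lie_zero]
        · exact e1
        · rw [← lie_skew (φ (of ℂ (.inl (.inr 0)))) (φ (of ℂ (.inl (.inl 0)))), lie_neg, e1, neg_zero]
        · rw [lie_self, lie_zero]
        · rw [lie_self, lie_zero]
        · rw [← lie_skew (φ (of ℂ (.inl (.inl 0)))) (φ (of ℂ (.inl (.inr 0)))), lie_neg, e2, neg_zero]
        · exact e2
        · rw [lie_self, lie_zero]
  obtain ⟨hxa, hxx⟩ := hmain
  have hax : ∀ j g, ⁅φ (of ℂ (.inr j)), φ (of ℂ (.inl g))⁆ = 0 := by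
    intro j g
    rw [← lie_skew, hxa, neg_zero]
  have haaa : ∀ i j k : Fin m, ⁅φ (of ℂ (.inr i)), ⁅φ (of ℂ (.inr j)), φ (of ℂ (.inr k))⁆⁆ = 0 := by
    refine qk_four' hm (fun j => φ (of ℂ (.inr j))) ?_
    intro α β hαβ
    by_contra hcon
    push Not at hcon
    exact qk_dec φ S hS hker hnil hxa hxx α β hαβ hcon
  refine qk_class_two φ hφ ?_
  rintro (g | a) (g' | a') (g'' | a'')
  · exact hxx g g' g''
  · rw [hxa, lie_zero]
  · rw [hax, lie_zero]
  · rw [leibniz_lie, hxa, hxa, zero_lie, lie_zero, add_zero]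
  · rw [leibniz_lie, hax, hax, zero_lie, lie_zero, add_zero]
  · rw [hxa, lie_zero]
  · rw [hax, lie_zero]
  · exact haaa a a' a''

end Pool.Agent.MP_9c903d.QK
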