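import Mathlib

/-!
# Part Four: four elements of a Lie algebra with few relations

Proof. `hdec` for `α, β` gives a relation `ρ` which does not vanish on `α ∧ β`.
For a linear form `f : L →ₗ[ℂ] ℂ` let `k^f i j := f ⁅a i, a j⁆` (antisymmetric); every relation `ρ` has
`∑ ρ_ij k^f_ij = 0`. Let `K` be the space of antisymmetric `k` with `∑ ρ_ij k_ij = 0` for all relations
`ρ`. An antisymmetric `k ≠ 0` with Pfaffian `k 0 1 * k 2 3 - k 0 2 * k 1 3 + k 0 3 * k 1 2 = 0` has the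
form `k_ij = α_i β_j - α_j β_i` with independent `α, β` (take `k_pr ≠ 0`, `α = k p ·` / `k_pr`,
`β = k r ·` up to sign), so it is not in `K`. Two elements of `K` are dependent: the Pfaffian of
`s k1 + t k2` is a binary quadratic form, which has a nontrivial zero over `ℂ`. So if some
`⁅a p, a r⁆ ≠ 0`, choose `f` with `f ⁅a p, a r⁆ ≠ 0`, `ω := k^f`, `Pf ω ≠ 0`, and every `k^g` is a
multiple of `ω`, so `g (ω_pr ⁅a i, a j⁆ - ω_ij ⁅a p, a r⁆) = 0` for all `g`, so `⁅a i, a j⁆ = ω_ij z`,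
`z = ω_pr⁻¹ ⁅a p, a r⁆`. Jacobi: `ω_ij ⁅z, a k⁆ + ω_jk ⁅z, a i⁆ + ω_ki ⁅z, a j⁆ = 0`; with
`f_k = ⁅z, a k⁆`: `ω_01 (023) - ω_02 (013) + ...` gives `Pf ω • f_0 = 0`, similarly for the others.
So `⁅a k, z⁆ = 0`.
-/

namespace Pool.Agent.MP_9c903d.QK

/-- The Pfaffian. -/
private def pf (k : Fin 4 → Fin 4 → ℂ) : ℂ := k 0 1 * k 2 3 - k 0 2 * k 1 3 + k 0 3 * k 1 2

private theorem diag {k : Fin 4 → Fin 4 → ℂ} (hk : ∀ i j, k i j = - k j i) (i : Fin 4) :
    k i i = 0 := by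
  have := hk i i
  linear_combination (1 / 2 : ℂ) * this

private theorem plucker {k : Fin 4 → Fin 4 → ℂ} (hk : ∀ i j, k i j = - k j i) (h : pf k = 0)
    (p r i j : Fin 4) : k p r * k i j - k p i * k r j + k p j * k r i = 0 := by
  have h00 := diag hk 0
  have h11 := diag hk 1
  have h22 := diag hk 2
  have h33 := diag hk 3
  have h10 := hk 1 0
  have h20 := hk 2 0
  have h30 := hk 3 0
  have h21 := hk 2 1
  have h31 := hk 3 1
  have h32 := hk 3 2
  unfold pf at h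
  fin_cases p <;> fin_cases r <;> fin_cases i <;> fin_cases j <;>
    simp only [Fin.zero_eta, Fin.mk_one, Fin.reduceFinMk, h00, h11, h22, h33, h10, h20, h30, h21,
      h31, h32] <;>
    first | ring1 | linear_combination h | linear_combination -h

/-- The space `K`. -/
private def InK' {L : Type*} [LieRing L] [LieAlgebra ℂ L] (a : Fin 4 → L)
    (k : Fin 4 → Fin 4 → ℂ) : Prop :=
  (∀ i j, k i j = - k j i) ∧ ∀ ρ : Fin 4 → Fin 4 → ℂ, ∑ i, ∑ j, ρ i j • ⁅a i, a j⁆ = 0 →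
    ∑ i, ∑ j, ρ i j * k i j = 0

private theorem dec_zero {L : Type*} [LieRing L] [LieAlgebra ℂ L] (a : Fin 4 → L)
    (hdec : ∀ α β : Fin 4 → ℂ, LinearIndependent ℂ ![α, β] → ∃ ρ : Fin 4 → Fin 4 → ℂ,
      ∑ i, ∑ j, ρ i j • ⁅a i, a j⁆ = 0 ∧ ∑ i, ∑ j, ρ i j * (α i * β j - α j * β i) ≠ 0)
    {k : Fin 4 → Fin 4 → ℂ} (hk : InK' a k) (h : pf k = 0) (p r : Fin 4) : k p r = 0 := by
  by_contra hpr
  have hpp := diag hk.1 p
  have hrr := diag hk.1 r
  have hrp := hk.1 r p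
  obtain ⟨ρ, h1, h2⟩ := hdec (fun i => (k p r)⁻¹ * k p i) (fun i => k r i) (by
    rw [LinearIndependent.pair_iff]
    intro s t hst
    have e1 := congrFun hst r
    have e2 := congrFun hst p
    simp only [Pi.add_apply, Pi.smul_apply, smul_eq_mul, Pi.zero_apply] at e1 e2
    rw [inv_mul_cancel₀ hpr, hrr, mul_zero, mul_one, add_zero] at e1
    rw [hpp, mul_zero, mul_zero, zero_add, hrp] at e2
    refine ⟨e1, ?_⟩
    rcases mul_eq_zero.1 e2 with e3 | e3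
    · exact e3
    · exact absurd (neg_eq_zero.1 e3) hpr)
  refine h2 ?_
  rw [← hk.2 ρ h1]
  refine Finset.sum_congr rfl fun i _ => Finset.sum_congr rfl fun j _ => ?_
  congr 1
  have e := plucker hk.1 h p r i j
  field_simp
  linear_combination -e

private theorem inK_form {L : Type*} [LieRing L] [LieAlgebra ℂ L] (a : Fin 4 → L)
    (f : L →ₗ[ℂ] ℂ) : InK' a (fun i j => f ⁅a i, a j⁆) := by
  refine ⟨fun i j => ?_, fun ρ hρ => ?_⟩
  · rw [← map_neg, lie_skew]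
  · have := congrArg f hρ
    simpa only [map_sum, map_smul, smul_eq_mul, map_zero] using this

private theorem inK_comb {L : Type*} [LieRing L] [LieAlgebra ℂ L] (a : Fin 4 → L)
    {k l : Fin 4 → Fin 4 → ℂ} (hk : InK' a k) (hl : InK' a l) (s : ℂ) :
    InK' a (fun i j => s * k i j + l i j) := by
  refine ⟨fun i j => ?_, fun ρ hρ => ?_⟩
  · change s * k i j + l i j = -(s * k j i + l j i)
    rw [hk.1 i j, hl.1 i j]
    ring
  · have h1 := hk.2 ρ hρ
    have h2 := hl.2 ρ hρ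
    have h3 : ∑ i, ∑ j, ρ i j * (s * k i j + l i j) =
        s * (∑ i, ∑ j, ρ i j * k i j) + ∑ i, ∑ j, ρ i j * l i j := by
      rw [Finset.mul_sum, ← Finset.sum_add_distrib]
      refine Finset.sum_congr rfl fun i _ => ?_
      rw [Finset.mul_sum, ← Finset.sum_add_distrib]
      refine Finset.sum_congr rfl fun j _ => ?_
      ring
    rw [h3, h1, h2, mul_zero, add_zero]

/-- Every element of `K` is a multiple of `ω`. -/
private theorem mult {L : Type*} [LieRing L] [LieAlgebra ℂ L] (a : Fin 4 → L)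
    (hdec : ∀ α β : Fin 4 → ℂ, LinearIndependent ℂ ![α, β] → ∃ ρ : Fin 4 → Fin 4 → ℂ,
      ∑ i, ∑ j, ρ i j • ⁅a i, a j⁆ = 0 ∧ ∑ i, ∑ j, ρ i j * (α i * β j - α j * β i) ≠ 0)
    {ω l : Fin 4 → Fin 4 → ℂ} (hω : InK' a ω) (hpf : pf ω ≠ 0) (hl : InK' a l) :
    ∃ s : ℂ, ∀ i j, l i j = s * ω i j := by
  obtain ⟨d, hd⟩ := IsAlgClosed.exists_eq_mul_self (discrim (pf ω)
    (ω 0 1 * l 2 3 + l 0 1 * ω 2 3 - (ω 0 2 * l 1 3 + l 0 2 * ω 1 3) +
      (ω 0 3 * l 1 2 + l 0 3 * ω 1 2)) (pf l))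
  obtain ⟨x, hx⟩ := exists_quadratic_eq_zero hpf ⟨d, hd⟩
  have h1 : pf (fun i j => x * ω i j + l i j) = 0 := by
    rw [← hx]
    unfold pf
    ring
  refine ⟨-x, fun i j => ?_⟩
  have h2 : x * ω i j + l i j = 0 := dec_zero a hdec (inK_comb a hω hl x) h1 i j
  linear_combination h2

theorem qk_four {L : Type*} [LieRing L] [LieAlgebra ℂ L] (a : Fin 4 → L)
    (hdec : ∀ α β : Fin 4 → ℂ, LinearIndependent ℂ ![α, β] → ∃ ρ : Fin 4 → Fin 4 → ℂ,
      ∑ i, ∑ j, ρ i j • ⁅a i, a j⁆ = 0 ∧ ∑ i, ∑ j, ρ i j * (α i * β j - α j * β i) ≠ 0)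
    (i j k : Fin 4) : ⁅a i, ⁅a j, a k⁆⁆ = 0 := by
  by_cases hall : ∀ p r, ⁅a p, a r⁆ = 0
  · rw [hall j k, lie_zero]
  · push Not at hall
    obtain ⟨p, r, hpr⟩ := hall
    obtain ⟨f, hf⟩ : ∃ f : L →ₗ[ℂ] ℂ, f ⁅a p, a r⁆ ≠ 0 := by
      by_contra hcon
      push Not at hcon
      exact hpr ((Module.forall_dual_apply_eq_zero_iff ℂ _).1 hcon)
    set ω : Fin 4 → Fin 4 → ℂ := fun i j => f ⁅a i, a j⁆ with hω
    have hωK : InK' a ω := inK_form a f
    have hpf : pf ω ≠ 0 := fun h0 => hf (dec_zero a hdec hωK h0 p r)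
    have hwpr : ω p r ≠ 0 := hf
    obtain ⟨z, hz⟩ : ∃ z : L, z = (ω p r)⁻¹ • ⁅a p, a r⁆ := ⟨_, rfl⟩
    have hbr : ∀ i j, ⁅a i, a j⁆ = ω i j • z := by
      intro i j
      rw [← sub_eq_zero, ← Module.forall_dual_apply_eq_zero_iff ℂ]
      intro g
      obtain ⟨s, hs⟩ := mult a hdec hωK hpf (inK_form a g)
      have e1 : g ⁅a i, a j⁆ = s * ω i j := hs i j
      have e2 : g ⁅a p, a r⁆ = s * ω p r := hs p r
      rw [map_sub, map_smul, hz, map_smul, smul_eq_mul, smul_eq_mul]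
      rw [e1, e2]
      field_simp
      ring
    have hJ : ∀ (g : L →ₗ[ℂ] ℂ) (i j k : Fin 4),
        ω j k * g ⁅a i, z⁆ + ω k i * g ⁅a j, z⁆ + ω i j * g ⁅a k, z⁆ = 0 := by
      intro g i j k
      have h1 := lie_jacobi (a i) (a j) (a k)
      rw [hbr j k, hbr k i, hbr i j, lie_smul, lie_smul, lie_smul] at h1
      have h2 := congrArg g h1
      simpa only [map_add, map_smul, smul_eq_mul, map_zero] using h2
    have hf0 : ∀ i, ⁅a i, z⁆ = 0 := by
      intro i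
      rw [← Module.forall_dual_apply_eq_zero_iff ℂ]
      intro g
      have d0 := diag hωK.1 0
      have d1 := diag hωK.1 1
      have d2 := diag hωK.1 2
      have d3 := diag hωK.1 3
      have h10 := hωK.1 1 0
      have h20 := hωK.1 2 0
      have h30 := hωK.1 3 0
      have h21 := hωK.1 2 1
      have h31 := hωK.1 3 1
      have h32 := hωK.1 3 2
      have j023 := hJ g 0 2 3
      have j013 := hJ g 0 1 3
      have j012 := hJ g 0 1 2
      have j123 := hJ g 1 2 3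
      have key : pf ω * g ⁅a i, z⁆ = 0 := by
        unfold pf
        rw [h30] at j023
        rw [h30] at j013
        rw [h20] at j012
        rw [h31] at j123
        fin_cases i
        · change (ω 0 1 * ω 2 3 - ω 0 2 * ω 1 3 + ω 0 3 * ω 1 2) * g ⁅a 0, z⁆ = 0
          linear_combination ω 0 1 * j023 - ω 0 2 * j013 + ω 0 3 * j012
        · change (ω 0 1 * ω 2 3 - ω 0 2 * ω 1 3 + ω 0 3 * ω 1 2) * g ⁅a 1, z⁆ = 0
          linear_combination ω 0 1 * j123 - ω 1 2 * j013 + ω 1 3 * j012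
        · change (ω 0 1 * ω 2 3 - ω 0 2 * ω 1 3 + ω 0 3 * ω 1 2) * g ⁅a 2, z⁆ = 0
          linear_combination ω 0 2 * j123 - ω 1 2 * j023 + ω 2 3 * j012
        · change (ω 0 1 * ω 2 3 - ω 0 2 * ω 1 3 + ω 0 3 * ω 1 2) * g ⁅a 3, z⁆ = 0
          linear_combination ω 0 3 * j123 - ω 1 3 * j023 + ω 2 3 * j013
      exact (mul_eq_zero.1 key).resolve_left hpf
    rw [hbr j k, lie_smul, hf0, smul_zero]

end Pool.Agent.MP_9c903d.QK
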