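import Pool.Agent.Lib.MP_9c903d_ag.QK.Fin
import Pool.Agent.Lib.MP_9c903d_ag.UB.Exp

/-!
# Part Grp: groups with Malcev-Morgan data with Hodge types
-/

namespace Pool.Agent.MP_9c903d.QK

open FreeLieAlgebra

attribute [local instance 100] LieRing.ofAssociativeRing

/-- `G` has Malcev-Morgan data with Hodge types: a homomorphism `ρ` to `GL_n(ℂ)` whose kernel
consists of torsion elements, and a nilpotent Lie algebra `N` of `n × n` matrices which has a
presentation with `h`, `h`, `m` generators of types `(1,0)`, `(0,1)`, `(1,1)` and relations of types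
`(p,q)`, `p, q ≤ 2`, such that every `ρ g` is `exp x = ∑_{i<n} x^i / i!` for some `x ∈ N` with
`x^n = 0`. -/
def HodgeMorganData (h m : ℕ) (G : Type*) [Group G] : Prop :=
  ∃ (n : ℕ) (ρ : G →* (Matrix (Fin n) (Fin n) ℂ)ˣ)
    (N : LieSubalgebra ℂ (Matrix (Fin n) (Fin n) ℂ)),
    LieRing.IsNilpotent N ∧ HodgePresented h m N ∧
    (∀ g, ∃ x ∈ N, x ^ n = 0 ∧
      ((ρ g : (Matrix (Fin n) (Fin n) ℂ)ˣ) : Matrix (Fin n) (Fin n) ℂ) = UB.expN n x) ∧
    ∀ g, ρ g = 1 → ∃ k, 0 < k ∧ g ^ k = 1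

theorem qk_grp {h m : ℕ} (hh : h ≤ 1) (hm : m ≤ 4) {G : Type*} [Group G]
    (D : HodgeMorganData h m G) (htf : ∀ g : G, ∀ k : ℕ, 0 < k → g ^ k = 1 → g = 1) :
    Group.IsNilpotent G ∧ Group.nilpotencyClass G ≤ 2 := by
  obtain ⟨n, ρ, N, hN, hP, hexp, hker⟩ := D
  have hC : LieModule.lowerCentralSeries ℂ N N 2 = ⊥ := qk_fin hh hm hP hN
  have hbot : (⊤ : Subgroup G).lowerCentralSeries 2 = ⊥ := by
    rw [eq_bot_iff]
    intro g hg
    obtain ⟨k, hk, hgk⟩ := hker g (UB.class_le 2 N ρ n hexp hC g hg)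
    exact Subgroup.mem_bot.mpr (htf g k hk hgk)
  have hn : Group.IsNilpotent G := Subgroup.nilpotent_iff_lowerCentralSeries.mpr ⟨2, hbot⟩
  exact ⟨hn, Subgroup.lowerCentralSeries_eq_bot_iff_nilpotencyClass_le.mp hbot⟩

end Pool.Agent.MP_9c903d.QK
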