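import Pool.Agent.Lib.MP_9c903d_ag.QK.Defs

/-!
# Part Oper: operators on `ℂ[X] × ℂ`

`Dop (f, c) = (X f, 0)`, `Wop w (f, c) = (c w, 0)`: `⁅Dop, Wop w⁆ = Wop (X w)`, `⁅Wop w, Wop w'⁆ = 0`.
`qk_oper2`: for a word `l` with `q ≥ 1` the value `ψ (br l)` is of the form `Wop w`, and `0` if
`q ≥ 2` (induction on `l`: `i = u`: `⁅Dop, Wop w⁆ = Wop (X w)`, `⁅Dop, 0⁆ = 0`; `i ≠ u`: the rest has
`q' = q - 1`; if `q' ≥ 1`, then `⁅Wop v, Wop w⁆ = 0`; if `q' = 0`, all letters of the rest are `u`, the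
value is `Dop` or `0` and `q = 1`). Then span_induction.
-/

namespace Pool.Agent.MP_9c903d.QK

open FreeLieAlgebra Polynomial

attribute [local instance 100] LieRing.ofAssociativeRing

/-- the operators on this space -/
abbrev Op : Type := Module.End ℂ (ℂ[X] × ℂ)

/-- `(f, c) ↦ (X f, 0)` -/
noncomputable def Dop : Op :=
  { toFun := fun v => (X * v.1, 0)
    map_add' := by intro v w; simp [mul_add]
    map_smul' := by intro c v; simp }

/-- `(f, c) ↦ (c w, 0)` -/
noncomputable def Wop (w : ℂ[X]) : Op :=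
  { toFun := fun v => (v.2 • w, 0)
    map_add' := by intro v w; simp [add_smul]
    map_smul' := by intro c v; simp [mul_smul] }

theorem qk_Dop_apply (v : ℂ[X] × ℂ) : Dop v = (X * v.1, 0) := rfl

theorem qk_Wop_apply (w : ℂ[X]) (v : ℂ[X] × ℂ) : Wop w v = (v.2 • w, 0) := rfl

theorem qk_DW (w : ℂ[X]) : ⁅Dop, Wop w⁆ = Wop (X * w) := by
  refine LinearMap.ext fun v => ?_
  rw [LieRing.of_associative_ring_bracket, LinearMap.sub_apply, Module.End.mul_apply,
    Module.End.mul_apply, qk_Wop_apply, qk_Wop_apply, qk_Wop_apply, qk_Dop_apply, qk_Dop_apply]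
  simp

theorem qk_WW (w w' : ℂ[X]) : ⁅Wop w, Wop w'⁆ = 0 := by
  refine LinearMap.ext fun v => ?_
  rw [LieRing.of_associative_ring_bracket, LinearMap.sub_apply, Module.End.mul_apply,
    Module.End.mul_apply, qk_Wop_apply, qk_Wop_apply, qk_Wop_apply, qk_Wop_apply]
  simp

theorem qk_DW_pow (n : ℕ) (w : ℂ[X]) : ((LieAlgebra.ad ℂ Op Dop) ^ n) (Wop w) = Wop (X ^ n * w) := by
  induction n with
  | zero => simp
  | succ n ih =>
    rw [pow_succ', Module.End.mul_apply, ih, LieAlgebra.ad_apply, qk_DW, pow_succ']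
    rw [mul_assoc]

theorem qk_Wop_eq_zero (w : ℂ[X]) (h : Wop w = 0) : w = 0 := by
  have := congrArg (fun f : Op => (f (0, 1)).1) h
  simpa [qk_Wop_apply] using this

theorem qk_oper_word {I : Type*} (t : I → ℕ × ℕ) (u : I) (hu : t u = (1, 0))
    (ht : ∀ i, i ≠ u → (t i).2 = 1) (ψ : FreeLieAlgebra ℂ I →ₗ⁅ℂ⁆ Op) (hψu : ψ (of ℂ u) = Dop)
    (hψ : ∀ i, i ≠ u → ∃ w, ψ (of ℂ i) = Wop w) (l : List I) :
    (((l.map t).sum).2 = 0 → ψ (br l) = Dop ∨ ψ (br l) = 0) ∧
    (1 ≤ ((l.map t).sum).2 → ∃ w, ψ (br l) = Wop w) ∧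
    (2 ≤ ((l.map t).sum).2 → ψ (br l) = 0) := by
  induction l with
  | nil =>
    refine ⟨fun _ => Or.inr ?_, fun h => ?_, fun h => ?_⟩
    · show ψ 0 = 0
      exact map_zero ψ
    · simp at h
    · simp at h
  | cons x l ih =>
    obtain ⟨ih0, ih1, ih2⟩ := ih
    have hs : (((x :: l).map t).sum).2 = (t x).2 + ((l.map t).sum).2 := by
      rw [List.map_cons, List.sum_cons, Prod.snd_add]
    rw [hs]
    cases l with
    | nil =>
      have hb : ψ (br [x]) = ψ (of ℂ x) := rfl
      rw [hb]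
      simp only [List.map_nil, List.sum_nil, Prod.snd_zero, add_zero]
      by_cases hx : x = u
      · subst hx
        rw [hu]
        refine ⟨fun _ => Or.inl hψu, fun h => ?_, fun h => ?_⟩
        · simp at h
        · simp at h
      · have h1 := ht x hx
        rw [h1]
        refine ⟨fun h => ?_, fun _ => hψ x hx, fun h => ?_⟩
        · simp at h
        · simp at h
    | cons y l =>
      have hb : ψ (br (x :: y :: l)) = ⁅ψ (of ℂ x), ψ (br (y :: l))⁆ := by
        show ψ ⁅of ℂ x, br (y :: l)⁆ = _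
        rw [LieHom.map_lie]
      rw [hb]
      by_cases hx : x = u
      · subst hx
        rw [hu, hψu]
        simp only [zero_add]
        refine ⟨fun h => ?_, fun h => ?_, fun h => ?_⟩
        · right
          rcases ih0 h with h1 | h1
          · rw [h1, lie_self]
          · rw [h1, lie_zero]
        · obtain ⟨w, hw⟩ := ih1 h
          exact ⟨X * w, by rw [hw, qk_DW]⟩
        · rw [ih2 h, lie_zero]
      · have h1 := ht x hx
        obtain ⟨v, hv⟩ := hψ x hx
        rw [h1, hv]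
        refine ⟨fun h => ?_, fun h => ?_, fun h => ?_⟩
        · omega
        · by_cases h0 : (((y :: l).map t).sum).2 = 0
          · rcases ih0 h0 with h2 | h2
            · refine ⟨-(X * v), ?_⟩
              rw [h2, ← lie_skew, qk_DW]
              refine LinearMap.ext fun z => ?_
              rw [LinearMap.neg_apply, qk_Wop_apply, qk_Wop_apply]
              simp
            · refine ⟨0, ?_⟩
              rw [h2, lie_zero]
              refine LinearMap.ext fun z => ?_
              rw [qk_Wop_apply, smul_zero]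
              rfl
          · obtain ⟨w, hw⟩ := ih1 (by omega)
            refine ⟨0, ?_⟩
            rw [hw, qk_WW]
            refine LinearMap.ext fun z => ?_
            rw [qk_Wop_apply, smul_zero]
            rfl
        · obtain ⟨w, hw⟩ := ih1 (by omega)
          rw [hw, qk_WW]

theorem qk_oper2 {I : Type*} (t : I → ℕ × ℕ) (u : I) (hu : t u = (1, 0))
    (ht : ∀ i, i ≠ u → (t i).2 = 1) (ψ : FreeLieAlgebra ℂ I →ₗ⁅ℂ⁆ Op) (hψu : ψ (of ℂ u) = Dop)
    (hψ : ∀ i, i ≠ u → ∃ w, ψ (of ℂ i) = Wop w) (p q : ℕ) (hq : 2 ≤ q)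
    (s : FreeLieAlgebra ℂ I) (hs : s ∈ Br t p q) : ψ s = 0 := by
  refine Submodule.span_induction (p := fun s _ => ψ s = 0) ?_ ?_ ?_ ?_ hs
  · rintro x ⟨l, h2, hl, rfl⟩
    exact (qk_oper_word t u hu ht ψ hψu hψ l).2.2 (by rw [hl]; exact hq)
  · exact map_zero ψ
  · intro x y _ _ hx hy
    rw [map_add, hx, hy, add_zero]
  · intro a x _ hx
    rw [map_smul, hx, smul_zero]

end Pool.Agent.MP_9c903d.QK
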