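import Pool.Agent.Lib.MP_9c903d_ag.QK.Words
import Pool.Agent.Lib.MP_9c903d_ag.QK.Oper

/-!
# Part StepA: the brackets with a generator of type (1,0)

Proof. `B i := (ad (φ u))^(2 - (t i).1) (φ i)` for `i ≠ u`, `B u := 0`. Claim: all `B i = 0`.
`Z := {d : I → ℂ | ∑ d_i • B i = 0}` is a subspace. If `Z ≠ ⊤`, some linear form `l ≠ 0` on `I → ℂ`
vanishes on `Z` (`Submodule.exists_le_ker_of_lt_top`); `λ_i := l (Pi.single i 1)`, `λ_u = 0` (as
`e_u ∈ Z`). `ψ := lift`: `u ↦ Dop`, `i ↦ Wop (λ_i X^(t i).1)`. Every `s ∈ S`, `s ∈ Br t p q`, `p ≤ 2`, is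
killed by `ψ`: q = 0: `s = 0` (qk_word0); q ≥ 2: qk_oper2; q = 1: `s = ∑ c_i (ad u)^(p-(t i).1) i`
(qk_word1), `ψ s = ∑ c_i λ_i Wop (X^p)` (qk_DW_pow; `(t i).1 < p`), and `(ad (φ u))^(2-p) (φ s) = 0`
says `c ∈ Z` (`(2-p) + (p-(t i).1) = 2-(t i).1`, `φ s = 0`), so `∑ c_i λ_i = l c = 0`.
So `φ.ker ≤ ψ.ker` (`LieSubmodule.lieSpan_le`). By `hnil` `(ad (φ u))^n (φ i) = 0` for some `n`, so
`(ad u)^n i ∈ φ.ker`, `0 = ψ (..) = Wop (X^n λ_i X^(t i).1)`, `λ_i = 0` for all `i`: `l = 0`,
contradiction. So `Z = ⊤`, and `e_i ∈ Z` gives `B i = 0`.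
-/

namespace Pool.Agent.MP_9c903d.QK

open FreeLieAlgebra Polynomial

attribute [local instance 100] LieRing.ofAssociativeRing

private theorem qk_map_ad {K M : Type*} [LieRing K] [LieAlgebra ℂ K] [LieRing M] [LieAlgebra ℂ M]
    (φ : K →ₗ⁅ℂ⁆ M) (x y : K) (n : ℕ) :
    φ (((LieAlgebra.ad ℂ K x) ^ n) y) = ((LieAlgebra.ad ℂ M (φ x)) ^ n) (φ y) := by
  induction n with
  | zero => simp
  | succ n ih =>
    rw [pow_succ', pow_succ', Module.End.mul_apply, Module.End.mul_apply, LieAlgebra.ad_apply,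
      LieAlgebra.ad_apply, LieHom.map_lie, ih]

private theorem qk_Wop_sum {I : Type*} [Fintype I] (c : I → ℂ) (w : I → ℂ[X]) :
    ∑ i, c i • Wop (w i) = Wop (∑ i, c i • w i) := by
  refine LinearMap.ext fun v => ?_
  rw [LinearMap.sum_apply]
  ext : 1
  · rw [Prod.fst_sum]
    show ∑ i, c i • (v.2 • w i) = v.2 • ∑ i, c i • w i
    rw [Finset.smul_sum]
    exact Finset.sum_congr rfl fun i _ => smul_comm _ _ _
  · rw [Prod.snd_sum]
    show ∑ i : I, c i • (0 : ℂ) = 0
    simp

theorem qk_stepA {I : Type*} [Fintype I] {L : Type*} [LieRing L] [LieAlgebra ℂ L]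
    (t : I → ℕ × ℕ) (u : I) (hu : t u = (1, 0))
    (ht : ∀ i, i ≠ u → t i = (0, 1) ∨ t i = (1, 1)) (φ : FreeLieAlgebra ℂ I →ₗ⁅ℂ⁆ L)
    (S : Set (FreeLieAlgebra ℂ I)) (hS : ∀ s ∈ S, ∃ p q, p ≤ 2 ∧ s ∈ Br t p q)
    (hker : φ.ker = LieSubmodule.lieSpan ℂ (FreeLieAlgebra ℂ I) S)
    (hnil : ∃ n, ∀ x y : L, ((LieAlgebra.ad ℂ L x) ^ n) y = 0) (i : I) (hi : i ≠ u) :
    ((LieAlgebra.ad ℂ L (φ (of ℂ u))) ^ (2 - (t i).1)) (φ (of ℂ i)) = 0 := by
  classical
  have ht2 : ∀ i, i ≠ u → (t i).2 = 1 := by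
    intro i hi
    rcases ht i hi with h | h <;> rw [h]
  set B : I → L := fun i => if i = u then 0 else
    ((LieAlgebra.ad ℂ L (φ (of ℂ u))) ^ (2 - (t i).1)) (φ (of ℂ i)) with hB
  set Λ : (I → ℂ) →ₗ[ℂ] L := ∑ i, (LinearMap.proj i : (I → ℂ) →ₗ[ℂ] ℂ).smulRight (B i) with hΛ
  have hΛa : ∀ d, Λ d = ∑ i, d i • B i := by
    intro d
    simp [hΛ, LinearMap.sum_apply]
  have hΛs : ∀ i, Λ (Pi.single i 1) = B i := by
    intro i
    rw [hΛa, Finset.sum_eq_single i]
    · simp
    · intro j _ hj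
      simp [Pi.single_eq_of_ne hj]
    · intro h
      exact absurd (Finset.mem_univ i) h
  by_cases hZ : LinearMap.ker Λ = ⊤
  · have h1 : Pi.single i 1 ∈ LinearMap.ker Λ := by rw [hZ]; trivial
    rw [LinearMap.mem_ker, hΛs] at h1
    simpa [hB, hi] using h1
  · exfalso
    obtain ⟨l, hl0, hl⟩ := Submodule.exists_le_ker_of_lt_top _ (lt_top_iff_ne_top.2 hZ)
    set lam : I → ℂ := fun i => l (Pi.single i 1) with hlam
    have hle : ∀ d : I → ℂ, l d = ∑ i, d i * lam i := by
      intro d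
      rw [LinearMap.pi_apply_eq_sum_univ l d]
      refine Finset.sum_congr rfl fun i _ => ?_
      rw [smul_eq_mul]
      congr 2
      funext j
      rw [Pi.single_apply]
      simp only [eq_comm]
    have hlu : lam u = 0 := by
      have h1 : (Pi.single u 1 : I → ℂ) ∈ LinearMap.ker Λ := by
        rw [LinearMap.mem_ker, hΛs]
        simp [hB]
      exact LinearMap.mem_ker.1 (hl h1)
    set ψ : FreeLieAlgebra ℂ I →ₗ⁅ℂ⁆ Op := FreeLieAlgebra.lift ℂ
      (fun i => if i = u then Dop else Wop (Polynomial.C (lam i) * X ^ (t i).1)) with hψ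
    have hψu : ψ (of ℂ u) = Dop := by
      rw [hψ, FreeLieAlgebra.lift_of_apply]
      simp
    have hψi : ∀ i, i ≠ u → ψ (of ℂ i) = Wop (Polynomial.C (lam i) * X ^ (t i).1) := by
      intro i hi
      rw [hψ, FreeLieAlgebra.lift_of_apply]
      simp [hi]
    have hkill : ∀ s ∈ S, ψ s = 0 := by
      intro s hs
      obtain ⟨p, q, hp, hsB⟩ := hS s hs
      have hφs : φ s = 0 := by
        have : s ∈ φ.ker := by
          rw [hker]
          exact LieSubmodule.subset_lieSpan hs
        exact this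
      rcases Nat.lt_or_ge q 2 with hq | hq
      · interval_cases q
        · rw [qk_word0 t u hu ht2 p s hsB, map_zero]
        · obtain ⟨c, hc, hsc⟩ := qk_word1 t u hu ht2 p s hsB
          have hcZ : Λ c = 0 := by
            have h1 : ((LieAlgebra.ad ℂ L (φ (of ℂ u))) ^ (2 - p)) (φ s) = Λ c := by
              rw [hsc, map_sum, map_sum, hΛa]
              refine Finset.sum_congr rfl fun j _ => ?_
              by_cases hcj : c j = 0
              · rw [hcj]; simp
              · obtain ⟨hju, hjp⟩ := hc j hcj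
                rw [map_smul, map_smul, qk_map_ad, ← Module.End.mul_apply, ← pow_add]
                have e : 2 - p + (p - (t j).1) = 2 - (t j).1 := by omega
                rw [e]
                simp [hB, hju]
            rw [← h1, hφs, map_zero]
          have hlc : ∑ j, c j * lam j = 0 := by
            rw [← hle]
            exact LinearMap.mem_ker.1 (hl (LinearMap.mem_ker.2 hcZ))
          have h2 : ψ s = ∑ j, c j • Wop (Polynomial.C (lam j) * X ^ p) := by
            rw [hsc, map_sum]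
            refine Finset.sum_congr rfl fun j _ => ?_
            by_cases hcj : c j = 0
            · rw [hcj]; simp
            · obtain ⟨hju, hjp⟩ := hc j hcj
              rw [map_smul, qk_map_ad, hψu, hψi j hju, qk_DW_pow]
              congr 2
              have e : p = (p - (t j).1) + (t j).1 := by omega
              conv_rhs => rw [e, pow_add]
              ring
          rw [h2, qk_Wop_sum]
          have e2 : ∑ j, c j • (Polynomial.C (lam j) * X ^ p : ℂ[X]) = 0 := by
            have e3 : ∀ j, c j • (Polynomial.C (lam j) * X ^ p : ℂ[X]) =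
                Polynomial.C (c j * lam j) * X ^ p := by
              intro j
              rw [Polynomial.smul_eq_C_mul, Polynomial.C_mul]
              ring
            simp only [e3]
            rw [← Finset.sum_mul, ← map_sum, hlc]
            simp
          rw [e2]
          refine LinearMap.ext fun v => ?_
          show (v.2 • (0 : ℂ[X]), (0 : ℂ)) = 0
          simp
      · exact qk_oper2 t u hu ht2 ψ hψu (fun i hi => ⟨_, hψi i hi⟩) p q hq s hsB
    have hle' : ∀ z, φ z = 0 → ψ z = 0 := by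
      intro z hz
      have hz' : z ∈ φ.ker := hz
      rw [hker] at hz'
      have : LieSubmodule.lieSpan ℂ (FreeLieAlgebra ℂ I) S ≤ ψ.ker := by
        rw [LieSubmodule.lieSpan_le]
        intro s hs
        exact hkill s hs
      exact this hz'
    obtain ⟨n, hn⟩ := hnil
    have hlam0 : ∀ i, lam i = 0 := by
      intro i
      by_cases hiu : i = u
      · rw [hiu]; exact hlu
      · have h1 := hle' (((LieAlgebra.ad ℂ (FreeLieAlgebra ℂ I) (of ℂ u)) ^ n) (of ℂ i)) (by
          rw [qk_map_ad]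
          exact hn _ _)
        rw [qk_map_ad, hψu, hψi i hiu, qk_DW_pow] at h1
        have h2 := qk_Wop_eq_zero _ h1
        have hX : (X : ℂ[X]) ≠ 0 := Polynomial.X_ne_zero
        rcases mul_eq_zero.1 h2 with h3 | h3
        · exact absurd h3 (pow_ne_zero _ hX)
        · rcases mul_eq_zero.1 h3 with h4 | h4
          · exact Polynomial.C_eq_zero.1 h4
          · exact absurd h4 (pow_ne_zero _ hX)
    apply hl0
    refine LinearMap.ext fun d => ?_
    rw [hle]
    simp [hlam0]

end Pool.Agent.MP_9c903d.QK
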