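import Pool.Agent.Lib.MP_9c903d_ag.QK.Defs

/-!
# Part Words: the elements of type `(p,0)` and `(p,1)`

`t u = (1,0)` and `(t i).2 = 1` for the other generators. Proofs: by induction on the word `l`, then
`Submodule.span_induction`. `qk_word0`: all letters are `u`; `br [u,u] = ⁅u,u⁆ = 0`, and
`br (u :: l) = ⁅u, br l⁆ = ⁅u, 0⁆ = 0` for longer ones. `qk_word1`: exactly one letter `i` is not `u`.
If `l = u :: l'`, `l'` has type `(p-1,1)`: either `l' = [i]` and `br l = ⁅u,i⁆ = (ad u)^1 i`, or `l'` has
length ≥ 2 and by induction `br l' = ∑ c_i (ad u)^(p-1-(t i).1) i`, apply `ad u`. If `l = i :: l'` with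
`i ≠ u`, all letters of `l'` are `u`: `l' = [u]` and `br l = ⁅i,u⁆ = -⁅u,i⁆`, `p = (t i).1 + 1`, or `l'` has
length ≥ 2 and `br l' = 0`.
-/

namespace Pool.Agent.MP_9c903d.QK

open FreeLieAlgebra

theorem qk_all_u {I : Type*} (t : I → ℕ × ℕ) (u : I)
    (ht : ∀ i, i ≠ u → (t i).2 = 1) (l : List I) (hl : ((l.map t).sum).2 = 0) :
    ∀ i ∈ l, i = u := by
  induction l with
  | nil => intro i hi; simp at hi
  | cons x l ih =>
    intro i hi
    rw [List.map_cons, List.sum_cons, Prod.snd_add] at hl
    rcases List.mem_cons.1 hi with h | h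
    · subst h
      by_contra hne
      have := ht i hne
      omega
    · exact ih (by omega) i h

theorem qk_br_all_u {I : Type*} (u : I) (l : List I) (hl : ∀ i ∈ l, i = u) (h2 : 2 ≤ l.length) :
    br l = 0 := by
  induction l with
  | nil => simp at h2
  | cons x l ih =>
    cases l with
    | nil => simp at h2
    | cons y l =>
      cases l with
      | nil =>
        have hx : x = u := hl x (by simp)
        have hy : y = u := hl y (by simp)
        subst hx; subst hy
        show ⁅of ℂ y, of ℂ y⁆ = 0
        exact lie_self _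
      | cons z l =>
        show ⁅of ℂ x, br (y :: z :: l)⁆ = 0
        rw [ih (fun i hi => hl i (List.mem_cons_of_mem _ hi)) (by simp), lie_zero]

theorem qk_word0 {I : Type*} (t : I → ℕ × ℕ) (u : I) (hu : t u = (1, 0))
    (ht : ∀ i, i ≠ u → (t i).2 = 1) (p : ℕ) (s : FreeLieAlgebra ℂ I) (hs : s ∈ Br t p 0) :
    s = 0 := by
  have hle : Br t p 0 ≤ ⊥ := by
    refine Submodule.span_le.2 ?_
    rintro x ⟨l, h2, hl, rfl⟩
    have : br l = 0 := qk_br_all_u u l (qk_all_u t u ht l (by rw [hl])) h2
    simpa using this
  simpa using hle hs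

theorem qk_word1_list {I : Type*} [Fintype I] (t : I → ℕ × ℕ) (u : I) (hu : t u = (1, 0))
    (ht : ∀ i, i ≠ u → (t i).2 = 1) (l : List I) : ∀ p : ℕ, 2 ≤ l.length →
    (l.map t).sum = (p, 1) →
    ∃ c : I → ℂ, (∀ i, c i ≠ 0 → i ≠ u ∧ (t i).1 < p) ∧
      br l = ∑ i, c i • ((LieAlgebra.ad ℂ (FreeLieAlgebra ℂ I) (of ℂ u)) ^ (p - (t i).1))
        (of ℂ i) := by
  classical
  induction l with
  | nil => intro p h2; simp at h2
  | cons x l ih =>
    intro p h2 hl
    rw [List.map_cons, List.sum_cons] at hl
    have h1 := congrArg Prod.fst hl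
    have h2' := congrArg Prod.snd hl
    rw [Prod.fst_add] at h1
    rw [Prod.snd_add] at h2'
    simp only at h1 h2'
    by_cases hx : x = u
    · subst hx
      rw [hu] at h1 h2'
      simp only at h1 h2'
      cases l with
      | nil => simp at h2
      | cons y l =>
        cases l with
        | nil =>
          simp only [List.map_cons, List.map_nil, List.sum_cons, List.sum_nil, add_zero] at h1 h2'
          have hy : y ≠ x := by
            intro h
            rw [h, hu] at h2'
            simp at h2'
          refine ⟨Pi.single y 1, ?_, ?_⟩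
          · intro i hi
            have : i = y := by
              by_contra hne
              exact hi (Pi.single_eq_of_ne hne _)
            subst this
            exact ⟨hy, by omega⟩
          · rw [Finset.sum_eq_single y]
            · rw [Pi.single_eq_same, one_smul]
              have : p - (t y).1 = 1 := by omega
              rw [this, pow_one, LieAlgebra.ad_apply]
              rfl
            · intro i _ hi
              rw [Pi.single_eq_of_ne hi, zero_smul]
            · intro h; exact absurd (Finset.mem_univ y) h
        | cons z l =>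
          obtain ⟨c, hc, hs⟩ := ih (((y :: z :: l).map t).sum).1 (by simp)
            (Prod.ext rfl (by simpa using h2'))
          refine ⟨c, ?_, ?_⟩
          · intro i hi
            obtain ⟨h3, h4⟩ := hc i hi
            exact ⟨h3, by omega⟩
          · show ⁅of ℂ x, br (y :: z :: l)⁆ = _
            rw [hs, ← LieAlgebra.ad_apply (R := ℂ), map_sum]
            refine Finset.sum_congr rfl fun i _ => ?_
            rw [map_smul]
            by_cases hci : c i = 0
            · rw [hci, zero_smul, zero_smul]
            · obtain ⟨h3, h4⟩ := hc i hci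
              have : p - (t i).1 = (((y :: z :: l).map t).sum).1 - (t i).1 + 1 := by omega
              rw [this, pow_succ']
              rfl
    · have h3 := ht x hx
      have hall : ∀ i ∈ l, i = u := qk_all_u t u ht l (by omega)
      cases l with
      | nil => simp at h2
      | cons y l =>
        cases l with
        | nil =>
          have hy : y = u := hall y (by simp)
          subst hy
          simp only [List.map_cons, List.map_nil, List.sum_cons, List.sum_nil, add_zero] at h1 h2'
          rw [hu] at h1
          simp only at h1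
          refine ⟨Pi.single x (-1), ?_, ?_⟩
          · intro i hi
            have : i = x := by
              by_contra hne
              exact hi (Pi.single_eq_of_ne hne _)
            subst this
            exact ⟨hx, by omega⟩
          · rw [Finset.sum_eq_single x]
            · rw [Pi.single_eq_same]
              have : p - (t x).1 = 1 := by omega
              rw [this, pow_one, LieAlgebra.ad_apply]
              show ⁅of ℂ x, of ℂ y⁆ = _
              rw [neg_smul, one_smul, lie_skew]
            · intro i _ hi
              rw [Pi.single_eq_of_ne hi, zero_smul]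
            · intro h; exact absurd (Finset.mem_univ x) h
        | cons z l =>
          refine ⟨0, fun i hi => absurd rfl hi, ?_⟩
          show ⁅of ℂ x, br (y :: z :: l)⁆ = _
          rw [qk_br_all_u u (y :: z :: l) hall (by simp), lie_zero]
          simp

theorem qk_word1 {I : Type*} [Fintype I] (t : I → ℕ × ℕ) (u : I) (hu : t u = (1, 0))
    (ht : ∀ i, i ≠ u → (t i).2 = 1) (p : ℕ) (s : FreeLieAlgebra ℂ I) (hs : s ∈ Br t p 1) :
    ∃ c : I → ℂ, (∀ i, c i ≠ 0 → i ≠ u ∧ (t i).1 < p) ∧
      s = ∑ i, c i • ((LieAlgebra.ad ℂ (FreeLieAlgebra ℂ I) (of ℂ u)) ^ (p - (t i).1)) (of ℂ i) := by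
  refine Submodule.span_induction (p := fun s _ => ∃ c : I → ℂ,
      (∀ i, c i ≠ 0 → i ≠ u ∧ (t i).1 < p) ∧
      s = ∑ i, c i • ((LieAlgebra.ad ℂ (FreeLieAlgebra ℂ I) (of ℂ u)) ^ (p - (t i).1)) (of ℂ i))
      ?_ ?_ ?_ ?_ hs
  · rintro x ⟨l, h2, hl, rfl⟩
    exact qk_word1_list t u hu ht l p h2 hl
  · exact ⟨0, fun i hi => absurd rfl hi, by simp⟩
  · rintro x y _ _ ⟨c, hc, rfl⟩ ⟨d, hd, rfl⟩
    refine ⟨c + d, ?_, ?_⟩
    · intro i hi
      by_cases h : c i = 0
      · exact hd i (by intro h'; exact hi (by rw [Pi.add_apply, h, h', add_zero]))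
      · exact hc i h
    · rw [← Finset.sum_add_distrib]
      refine Finset.sum_congr rfl fun i _ => ?_
      rw [Pi.add_apply, add_smul]
  · rintro a x _ ⟨c, hc, rfl⟩
    refine ⟨a • c, ?_, ?_⟩
    · intro i hi
      exact hc i (by intro h'; exact hi (by rw [Pi.smul_apply, h', smul_zero]))
    · rw [Finset.smul_sum]
      refine Finset.sum_congr rfl fun i _ => ?_
      rw [Pi.smul_apply, smul_eq_mul, mul_smul]

end Pool.Agent.MP_9c903d.QK
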